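import Pool.Agent.W70.MH.Final

/-!
# The height on a quotient is comparable to the minimal height in the orbit

Both questions have a positive answer.

* Q1: let `X` and `Y` be quasi-projective varieties over the algebraic numbers, embedded in projective
  spaces, let a group `G` act on `X`, and let `π : X → Y` be a surjective morphism whose fibres are
  the orbits of `G` (this holds for every geometric quotient, and no other property of geometric
  quotients and no property of the group or of the action is needed).  Then
  `h_Y(π x) ≍ inf over g in G of h_X(g x)` for `x` in `X`.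
* Q2: the same for `X = Rat_d`, `d ≥ 2`, `G = PGL_2` acting by conjugation: for every morphism `π`
  from `Rat_d` to a projective space whose fibres are the conjugacy classes, in particular for the
  composite of the quotient map with any embedding of the moduli space `M_d` in a projective space.

Heights of quasi-projective varieties are the pull-backs of the absolute logarithmic Weil height
under the embedding; points and group elements are over the algebraic closure of the rationals.
-/

namespace Pool.Agent.Results.MP_216eb3_nt.MinimalHeights

open Pool.Agent.W70.MH

theorem result :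
    (∀ (ι κ : Type) [Finite ι] [Finite κ] (X : Set (P ι)) (Y : Set (P κ)),
      QuasiProj X → QuasiProj Y → ∀ (G : Type) [Group G] [MulAction G X] (π : X → Y),
      IsMorphism X (fun x => (π x : P κ)) → Function.Surjective π →
      (∀ x x' : X, π x = π x' ↔ ∃ g : G, g • x = x') →
      Comparable (fun x : X => height (π x : P κ))
        (fun x : X => ⨅ g : G, height ((g • x : X) : P ι))) ∧
    (∀ (d : ℕ), 2 ≤ d → ∀ (κ : Type) [Finite κ] (π : Rat d → P κ), IsMorphism (Rat d) π →
      (∀ f f' : Rat d, π f = π f' ↔ Conj f f') →
      Comparable (fun f : Rat d => height (π f))
        (fun f : Rat d => ⨅ f' : {f' : Rat d // Conj f f'},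
          height ((f' : Rat d) : P (Fin 2 × Fin (d + 1))))) := by
  refine ⟨?_, ?_⟩
  · intro ι κ _ _ X Y hX _ G _ _ π hπ _ horb
    refine comparable X hX _ hπ (fun _ => G) (fun _ => ⟨1⟩) (fun x g => g • x) ?_ ?_
    · intro x g
      exact congrArg Subtype.val ((horb x (g • x)).2 ⟨g, rfl⟩).symm
    · intro x x' h
      exact (horb x x').1 (Subtype.ext h.symm)
  · intro d _ κ _ π hπ hfib
    refine comparable (Rat d) (quasiProj_rat d) π hπ (fun f => {f' : Rat d // Conj f f'})
      (fun f => ⟨f, (hfib f f).1 rfl⟩) (fun _ f' => f'.1) ?_ ?_
    · intro f f'
      exact ((hfib f f').2 f'.2).symm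
    · intro f f' h
      exact ⟨⟨f', (hfib f f').1 h.symm⟩, rfl⟩

end Pool.Agent.Results.MP_216eb3_nt.MinimalHeights
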